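import Pool.Agent.TH279.DG.Asy

set_option autoImplicit false

open Complex Topology Filter Metric MeasureTheory Set N62a1eb23
open Pool.Agent.H713R2 Pool.Agent.H713R2.AR Pool.Agent.H637R4.PO

namespace Pool.Agent.TH279.DG

/-- At almost every point of a Multibrot set the first `n` iterates are bounded on the disc of radius
`exp (-n ^ β)`. -/
theorem ae_ball {d : ℕ} (hd : 2 ≤ d) : ∀ᵐ c ∂(volume.restrict (multibrotSet d)),
    ∀ β : ℝ, 1 / 2 < β → ∀ᶠ n : ℕ in atTop, ∀ c' ∈ ball c (Real.exp (-(n : ℝ) ^ β)), ∀ k ≤ n,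
      ‖PP d k c'‖ ≤ 6 := by
  have hcl := t_CLO d hd
  have hsub : multibrotSet d ⊆ closedBall 0 2 := fun c hc => by
    rw [mem_closedBall_zero_iff]
    exact f_NRM d hd c hc
  rcases (multibrotSet d).eq_empty_or_nonempty with he | hne
  · rw [he, Measure.restrict_empty]
    simp
  have h1 : ∀ᵐ c ∂(volume.restrict (multibrotSet d)), ∀ n : ℕ,
      Summable (fun k : ℕ => mm (multibrotSet d) (1 / ((n : ℝ) + 1)) c ((1 / 2 : ℝ) ^ k)) := by
    refine ae_all_iff.2 fun n => ?_
    refine t_MARC (multibrotSet d) hcl hsub hne (1 / ((n : ℝ) + 1)) (by positivity) ?_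
    rw [div_le_one (by positivity)]
    have : (0 : ℝ) ≤ n := Nat.cast_nonneg n
    linarith
  filter_upwards [h1, ae_restrict_mem hcl.measurableSet] with c hc hcK
  have key : ∀ β : ℝ, 1 / 2 < β → β ≤ 1 →
      ∀ᶠ n : ℕ in atTop, ∀ c' ∈ ball c (Real.exp (-(n : ℝ) ^ β)), ∀ k ≤ n,
      ‖PP d k c'‖ ≤ 6 := by
    intro β hβ hβ1
    obtain ⟨ψ, hψ⟩ := AE2_ext hd
    obtain ⟨U, hU, hUB'⟩ := f_UB (multibrotSet d) ψ hψ 3
    have hc2 := f_NRM d hd c hcK
    have hB1 : Bnd ψ c 1 U := by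
      intro w hw hwb
      apply hUB' w hw
      rw [mem_ball, dist_eq_norm] at hwb
      have := norm_sub_norm_le (ψ w) c
      linarith
    obtain ⟨n, hn⟩ := exists_nat_one_div_lt (by linarith : 0 < β - 1 / 2)
    set l : ℝ := 1 / ((n : ℝ) + 1) with hl
    have hl0 : 0 < l := by rw [hl]; positivity
    have hlβ : (1 + l) / (2 + l) < β := by
      rw [div_lt_iff₀ (by linarith)]
      nlinarith
    by_cases hall : ∀ k : ℕ, 0 < mm (multibrotSet d) l c ((1 / 2 : ℝ) ^ k)
    · have hs := hc n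
      rw [← hl] at hs
      have hBpos : 0 < (∑' k : ℕ, mm (multibrotSet d) l c ((1 / 2 : ℝ) ^ k)) + 1 := by
        have h2 : 0 ≤ ∑' k : ℕ, mm (multibrotSet d) l c ((1 / 2 : ℝ) ^ k) :=
          tsum_nonneg (fun k => (hall k).le)
        linarith
      obtain ⟨b, hb, hbn⟩ := f_ITER (multibrotSet d) ψ hψ c U l _ hcK hU hl0 hBpos hB1 hall (by
        intro n
        have := hs.sum_le_tsum (Finset.range n) (fun k _ => (hall k).le)
        linarith)
      filter_upwards [asy hd hU hb hl0 hlβ hβ1] with N hN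
      obtain ⟨m, hm1, hm2⟩ := hN
      intro c' hc' k hk
      exact bound_on_ball hd hψ (hbn m) (by unfold sb; positivity) hm1 c'
        (ball_subset_ball hm2 hc') k (by omega)
    · push Not at hall
      obtain ⟨k, hk⟩ := hall
      have hρ : (0 : ℝ) < (1 / 2 : ℝ) ^ k := by positivity
      have hball := t_NUL (multibrotSet d) hcl c ((1 / 2 : ℝ) ^ k) l hcK hρ hl0 hk
      have h2 : Tendsto (fun n : ℕ => Real.exp (-(n : ℝ) ^ β)) atTop (𝓝 0) :=
        Real.tendsto_exp_neg_atTop_nhds_zero.comp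
          ((tendsto_rpow_atTop (by linarith : 0 < β)).comp tendsto_natCast_atTop_atTop)
      filter_upwards [h2.eventually (gt_mem_nhds hρ)] with N hN
      intro c' hc' j _
      have h3 : c' ∈ multibrotSet d := hball (ball_subset_ball (by linarith) hc')
      have h4 := (Pool.Agent.H712R2.mem_multibrot_iff hd c').mp h3 j
      rw [PP_eq]
      linarith
  intro β hβ
  rcases le_or_gt β 1 with h | h
  · exact key β hβ h
  · filter_upwards [key 1 (by norm_num) le_rfl, eventually_ge_atTop 1] with n hn hn1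
    intro c' hc' k hk
    refine hn c' (ball_subset_ball ?_ hc') k hk
    apply Real.exp_le_exp.2
    apply neg_le_neg
    apply Real.rpow_le_rpow_of_exponent_le (by exact_mod_cast hn1) h.le

/-- the derivatives of the critical orbit at almost every point of a Multibrot set -/
theorem ae_deriv {d : ℕ} (hd : 2 ≤ d) : ∀ᵐ c ∂(volume.restrict (multibrotSet d)),
    ∀ β : ℝ, 1 / 2 < β → ∀ᶠ n : ℕ in atTop, ‖deriv (PP d n) c‖ ≤ Real.exp ((n : ℝ) ^ β) := by
  filter_upwards [ae_ball hd] with c hc β hβ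
  obtain ⟨γ, hγ1, hγ2⟩ := exists_between hβ
  have hγ0 : 0 < γ := by linarith
  have h1 : Tendsto (fun n : ℕ => (n : ℝ) ^ (β - γ)) atTop atTop :=
    (tendsto_rpow_atTop (by linarith)).comp tendsto_natCast_atTop_atTop
  filter_upwards [hc γ hγ1, h1.eventually (eventually_ge_atTop 3), eventually_ge_atTop 1] with n hn h3 hn1
  have hn1' : (1 : ℝ) ≤ n := by exact_mod_cast hn1
  have h4 := deriv_le (d := d) (c := c) (n := n) (Real.exp_pos (-(n : ℝ) ^ γ))
    (fun c' hc' => hn c' hc' n le_rfl)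
  refine h4.trans ?_
  rw [Real.exp_neg, div_inv_eq_mul]
  have h5 : (6 : ℝ) ≤ Real.exp 2 := by
    have h6 : Real.exp 2 = Real.exp 1 * Real.exp 1 := by rw [← Real.exp_add]; norm_num
    have h7 := Real.exp_one_gt_d9
    rw [h6]
    nlinarith
  calc 6 * Real.exp ((n : ℝ) ^ γ) ≤ Real.exp 2 * Real.exp ((n : ℝ) ^ γ) :=
        mul_le_mul_of_nonneg_right h5 (Real.exp_pos _).le
    _ = Real.exp (2 + (n : ℝ) ^ γ) := (Real.exp_add _ _).symm
    _ ≤ Real.exp ((n : ℝ) ^ β) := by
        apply Real.exp_le_exp.2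
        have h8 : (n : ℝ) ^ β = (n : ℝ) ^ γ * (n : ℝ) ^ (β - γ) := by
          rw [← Real.rpow_add (by linarith)]
          congr 1
          ring
        have h9 : 1 ≤ (n : ℝ) ^ γ := Real.one_le_rpow hn1' hγ0.le
        rw [h8]
        nlinarith

end Pool.Agent.TH279.DG
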