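import Pool.Agent.TH279.DG.Key

set_option autoImplicit false

open Complex Topology Filter Metric MeasureTheory Set N62a1eb23
open Pool.Agent.H713R2 Pool.Agent.H713R2.AR Pool.Agent.H637R4.PO

namespace Pool.Agent.TH279.DG

theorem asy_aux {A B b q : ℝ} (hb : 0 < b) (hq : 1 < q) :
    ∀ᶠ n : ℕ in atTop, A * (n : ℝ) + B ≤ b * (n : ℝ) ^ q := by
  have h1 : Tendsto (fun n : ℕ => (n : ℝ) ^ (q - 1)) atTop atTop :=
    (tendsto_rpow_atTop (by linarith)).comp tendsto_natCast_atTop_atTop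
  have h2 := h1.eventually (eventually_ge_atTop ((|A| + |B|) / b))
  filter_upwards [h2, eventually_ge_atTop 1] with n hn hn1
  have hn1' : (1 : ℝ) ≤ n := by exact_mod_cast hn1
  have h3 : (n : ℝ) ^ q = n * (n : ℝ) ^ (q - 1) := by
    rw [Real.rpow_sub_one (by positivity)]
    field_simp
  rw [h3]
  rw [div_le_iff₀ hb] at hn
  have h4 : A * (n : ℝ) ≤ |A| * n := mul_le_mul_of_nonneg_right (le_abs_self A) (by positivity)
  have h5 : B ≤ |B| * n := by
    have h6 := le_abs_self B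
    have h7 := abs_nonneg B
    nlinarith
  have h8 : (|A| + |B|) * n ≤ ((n : ℝ) ^ (q - 1) * b) * n :=
    mul_le_mul_of_nonneg_right hn (by positivity)
  linarith

theorem asy {d : ℕ} (hd : 2 ≤ d) {U b l β : ℝ} (hU : 0 < U) (hb : 0 < b) (hl : 0 < l)
    (hβ : (1 + l) / (2 + l) < β) (hβ1 : β ≤ 1) :
    ∀ᶠ n : ℕ in atTop, ∃ m : ℕ, (d : ℝ) ^ n * sb U b l m ≤ 1 ∧
      Real.exp (-(n : ℝ) ^ β) ≤ (1 / 2 : ℝ) ^ m := by
  have hβ0 : 0 < β := lt_trans (by positivity) hβ
  have hdR : (2 : ℝ) ≤ d := by exact_mod_cast hd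
  have hlog2 : 0 < Real.log 2 := Real.log_pos (by norm_num)
  have hlog2' : Real.log 2 < 0.7 := lt_trans Real.log_two_lt_d9 (by norm_num)
  set p : ℝ := (2 + l) / (1 + l) with hp
  have hp0 : 0 < p := by positivity
  have hq : 1 < β * p := by
    have h1 : (1 + l) / (2 + l) * p = 1 := by rw [hp]; field_simp
    nlinarith
  have h1 := asy_aux (A := Real.log d + 2 * Real.log 2) (B := Real.log U)
    (b := b * Real.log 2) (q := β * p) (by positivity) hq
  have h2 : Tendsto (fun n : ℕ => (n : ℝ) ^ β) atTop atTop :=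
    (tendsto_rpow_atTop hβ0).comp tendsto_natCast_atTop_atTop
  filter_upwards [h1, h2.eventually (eventually_ge_atTop 10), eventually_ge_atTop 1] with n hn hn10 hn1
  have hn1' : (1 : ℝ) ≤ n := by exact_mod_cast hn1
  set X : ℝ := (n : ℝ) ^ β with hX
  have hXn : X ≤ n := by
    rw [hX]
    calc (n : ℝ) ^ β ≤ (n : ℝ) ^ (1 : ℝ) := Real.rpow_le_rpow_of_exponent_le hn1' hβ1
      _ = n := Real.rpow_one _
  have hX0 : 0 ≤ X / Real.log 2 := by positivity
  refine ⟨⌊X / Real.log 2⌋₊, ?_, ?_⟩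
  · set m := ⌊X / Real.log 2⌋₊ with hm
    have hm1 : (m : ℝ) ≤ X / Real.log 2 := Nat.floor_le hX0
    have hm2 : X / Real.log 2 < m + 1 := Nat.lt_floor_add_one _
    have hm3 : X ≤ m := by
      have h3 : X / 0.7 ≤ X / Real.log 2 :=
        div_le_div_of_nonneg_left (by linarith) hlog2 hlog2'.le
      have h4 : X / 0.7 = X * (10 / 7) := by norm_num; ring
      rw [h4] at h3
      linarith
    have hm4 : (m : ℝ) ≤ 2 * n := by
      have h3 : (0.6931471803 : ℝ) < Real.log 2 := Real.log_two_gt_d9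
      have h4 : X / Real.log 2 ≤ X / 0.5 :=
        div_le_div_of_nonneg_left (by linarith) (by norm_num) (by linarith)
      have h5 : X / 0.5 = 2 * X := by norm_num; ring
      linarith
    have hm5 : (n : ℝ) ^ (β * p) ≤ (m : ℝ) ^ p := by
      rw [Real.rpow_mul (by positivity), ← hX]
      exact Real.rpow_le_rpow (by linarith) hm3 hp0.le
    unfold sb
    have e1 : (d : ℝ) ^ n = Real.exp (n * Real.log d) := by
      rw [mul_comm, Real.exp_mul, Real.exp_log (by linarith), Real.rpow_natCast]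
    have e2 : (2 : ℝ) ^ m = Real.exp (m * Real.log 2) := by
      rw [mul_comm, Real.exp_mul, Real.exp_log (by norm_num), Real.rpow_natCast]
    have e3 : (2 : ℝ) ^ (-(b * (m : ℝ) ^ p)) = Real.exp (-(b * (m : ℝ) ^ p) * Real.log 2) := by
      rw [Real.rpow_def_of_pos (by norm_num), mul_comm]
    have e4 : U = Real.exp (Real.log U) := (Real.exp_log hU).symm
    rw [e1, e2, e3]
    have e5 : U * Real.exp (↑m * Real.log 2) * Real.exp (-(b * (m : ℝ) ^ p) * Real.log 2) =
        Real.exp (Real.log U + m * Real.log 2 + -(b * (m : ℝ) ^ p) * Real.log 2) := by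
      rw [Real.exp_add, Real.exp_add, Real.exp_log hU]
    rw [e5, ← Real.exp_add, Real.exp_le_one_iff]
    have h6 : b * Real.log 2 * (n : ℝ) ^ (β * p) ≤ b * Real.log 2 * (m : ℝ) ^ p :=
      mul_le_mul_of_nonneg_left hm5 (by positivity)
    have h7 : (m : ℝ) * Real.log 2 ≤ 2 * n * Real.log 2 :=
      mul_le_mul_of_nonneg_right hm4 hlog2.le
    nlinarith
  · have h3 : (⌊X / Real.log 2⌋₊ : ℝ) * Real.log 2 ≤ X := by
      have h4 := Nat.floor_le hX0
      rwa [le_div_iff₀ hlog2] at h4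
    have h5 : (1 / 2 : ℝ) ^ ⌊X / Real.log 2⌋₊ = Real.exp (-(⌊X / Real.log 2⌋₊ * Real.log 2)) := by
      rw [Real.exp_neg, mul_comm, Real.exp_mul, Real.exp_log (by norm_num), Real.rpow_natCast,
        one_div, inv_pow]
    rw [h5]
    apply Real.exp_le_exp.2
    linarith

end Pool.Agent.TH279.DG
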