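import Pool.Agent.H637R4.PO.Fin2

/-! Growth of the parameter derivatives of the critical orbit (helper279): the basic estimate. -/

set_option autoImplicit false

open Complex Topology Filter Metric MeasureTheory Set N62a1eb23
open Pool.Agent.H713R2 Pool.Agent.H713R2.AR Pool.Agent.H637R4.PO

namespace Pool.Agent.TH279.DG

/-- the critical orbit, as a function of the parameter -/
noncomputable def PP (d n : ℕ) (c : ℂ) : ℂ := (fun z : ℂ => z ^ d + c)^[n] 0

theorem PP_eq (d n : ℕ) (c : ℂ) : PP d n c = Pool.Agent.H712R2.P d n c := rfl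

theorem two_e_le : 2 * Real.exp 1 ≤ 6 := by
  have := Real.exp_one_lt_d9
  linarith

/-- On a disc where the exterior coordinate is small the first iterates are bounded. -/
theorem bound_on_ball {d : ℕ} (hd : 2 ≤ d) {ψ : ℂ → ℂ} (hE : Ext (multibrotSet d) ψ) {c : ℂ}
    {ρ s : ℝ} (hB : Bnd ψ c ρ s) {n : ℕ} (hs0 : 0 ≤ s) (hs : (d : ℝ) ^ n * s ≤ 1) :
    ∀ c' ∈ ball c ρ, ∀ k ≤ n + 1, ‖PP d k c'‖ ≤ 6 := by
  intro c' hc' k hk
  by_cases hm : c' ∈ multibrotSet d
  · have h := (Pool.Agent.H712R2.mem_multibrot_iff hd c').mp hm k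
    rw [PP_eq]
    linarith
  · rcases Nat.eq_zero_or_pos k with h0 | h0
    · rw [h0]
      show ‖(0 : ℂ)‖ ≤ 6
      simp
    obtain ⟨m, rfl⟩ : ∃ m, k = m + 1 := ⟨k - 1, by omega⟩
    have h2 : c' ∈ ψ '' {z | 1 < ‖z‖} := by rw [hE.image]; exact hm
    obtain ⟨w, hw, hwe⟩ := h2
    have hw1 : 1 < ‖w‖ := hw
    have h3 := hB w hw (by rw [hwe]; exact hc')
    obtain ⟨β, hβ⟩ := exists_beta hd
    have hψ : IsExteriorMap (multibrotSet d) ψ := ⟨hE.diff, hE.inj, hE.image, hE.infinity⟩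
    have h4 := exteriorMap_unique hβ hψ hw1
    have h5 := P_psi_le hd hβ m hw1
    rw [← h4, hwe] at h5
    rw [PP_eq]
    refine h5.trans ?_
    have h6 : ‖w‖ ≤ Real.exp s := by
      have := Real.add_one_le_exp s
      linarith
    have h7 : ‖w‖ ^ (d ^ m) ≤ Real.exp 1 := by
      calc ‖w‖ ^ (d ^ m) ≤ (Real.exp s) ^ (d ^ m) := pow_le_pow_left₀ (norm_nonneg _) h6 _
        _ = Real.exp ((d ^ m : ℕ) * s) := (Real.exp_nat_mul s (d ^ m)).symm
        _ ≤ Real.exp 1 := by
          apply Real.exp_le_exp.2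
          refine le_trans ?_ hs
          push_cast
          apply mul_le_mul_of_nonneg_right _ hs0
          apply pow_le_pow_right₀ _ (by omega)
          exact_mod_cast (by omega : 1 ≤ d)
    have := two_e_le
    linarith

theorem differentiable_PP (d k : ℕ) : Differentiable ℂ (PP d k) := differentiable_P d k

/-- Cauchy's estimate -/
theorem deriv_le {d : ℕ} {c : ℂ} {ρ : ℝ} {n : ℕ} (hρ : 0 < ρ)
    (h : ∀ c' ∈ ball c ρ, ‖PP d n c'‖ ≤ 6) : ‖deriv (PP d n) c‖ ≤ 6 / ρ := by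
  have h1 : ∀ c' ∈ closedBall c ρ, ‖PP d n c'‖ ≤ 6 := by
    intro c' hc'
    rw [← closure_ball c hρ.ne'] at hc'
    have hcl : IsClosed {z : ℂ | ‖PP d n z‖ ≤ 6} :=
      isClosed_le (differentiable_PP d n).continuous.norm continuous_const
    exact hcl.closure_subset_iff.2 (fun z hz => h z hz) hc'
  refine Complex.norm_deriv_le_of_forall_mem_sphere_norm_le hρ ?_ ?_
  · exact (differentiable_PP d n).diffContOnCl
  · intro z hz
    exact h1 z (sphere_subset_closedBall hz)

end Pool.Agent.TH279.DG
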